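import Pool.Agent.Results.MP_34e3ac_co.Nonsingular

/-!
# The spectrum of the Hasse diagram of `L(m,n)`
-/

set_option autoImplicit false

namespace Pool.Agent.Y399.LS

open Finset Matrix Pool.Agent.Results.MP_34e3ac_co.Nonsingular

/-- the sum of the path eigenvalues with indices in `J` -/
noncomputable def cs (N : ℕ) (J : Finset ℕ) : ℝ :=
  ∑ j ∈ J, 2 * Real.cos (Real.pi * j / ((N : ℝ) + 1))

/-- the subset of `{1, …, m + n}` belonging to an element of `L(m,n)` -/
noncomputable def sub {m n : ℕ} (l : L m n) : Finset ℕ :=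
  Finset.univ.image fun b => (X l b).toNat

lemma toNat_inj {m n : ℕ} (k : L m n) : Function.Injective (fun b => (X k b).toNat) := by
  intro a b hab
  have h1 := X_pos k a
  have h2 := X_pos k b
  simp only at hab
  exact (X_strictAnti k).injective (by omega)

lemma sub_mem {m n : ℕ} (k : L m n) : sub k ∈ (Finset.Icc 1 (m + n)).powersetCard m := by
  rw [Finset.mem_powersetCard]
  constructor
  · intro j hj
    rw [sub, Finset.mem_image] at hj
    obtain ⟨b, _, rfl⟩ := hj
    have h1 := X_pos k b
    have h2 := X_le k b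
    rw [Finset.mem_Icc]
    omega
  · rw [sub, Finset.card_image_of_injective _ (toNat_inj k)]
    simp

lemma sub_injective {m n : ℕ} : Function.Injective (sub : L m n → Finset ℕ) := by
  intro k l h
  apply X_injective
  have hk : StrictMono fun a => -X k a := fun a b hab => neg_lt_neg (X_strictAnti k hab)
  have hl : StrictMono fun a => -X l a := fun a b hab => neg_lt_neg (X_strictAnti l hab)
  have hr : Set.range (fun a => -X k a) = Set.range (fun a => -X l a) := by
    ext y
    simp only [Set.mem_range]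
    have key : ∀ (p q : L m n), sub p = sub q → (∃ a, -X p a = y) → ∃ a, -X q a = y := by
      rintro p q hpq ⟨a, rfl⟩
      have h1 : (X p a).toNat ∈ sub p := Finset.mem_image.mpr ⟨a, Finset.mem_univ _, rfl⟩
      rw [hpq, sub, Finset.mem_image] at h1
      obtain ⟨b, -, hb⟩ := h1
      refine ⟨b, ?_⟩
      have h2 := X_pos p a
      have h3 := X_pos q b
      omega
    exact ⟨key k l h, key l k h.symm⟩
  have h1 := (StrictMono.range_inj hk hl).mp hr
  funext a
  have h2 : -X k a = -X l a := congrFun h1 a
  omega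

lemma sub_surj {m n : ℕ} (J : Finset ℕ) (hJ : J ∈ (Finset.Icc 1 (m + n)).powersetCard m) :
    ∃ k : L m n, sub k = J := by
  rw [Finset.mem_powersetCard] at hJ
  obtain ⟨hJ, hcard⟩ := hJ
  have hanti : StrictAnti (fun a : Fin m => ((J.orderEmbOfFin hcard (Fin.rev a) : ℕ) : ℤ)) := by
    intro a b hab
    simp only
    have : J.orderEmbOfFin hcard (Fin.rev b) < J.orderEmbOfFin hcard (Fin.rev a) := by
      apply (J.orderEmbOfFin hcard).strictMono
      exact Fin.rev_lt_rev.mpr hab
    exact_mod_cast this
  have hmem : ∀ a : Fin m, J.orderEmbOfFin hcard (Fin.rev a) ∈ Finset.Icc 1 (m + n) :=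
    fun a => hJ (J.orderEmbOfFin_mem hcard _)
  obtain ⟨k, hk⟩ := exists_X (m := m) (n := n) hanti
    (fun a => by
      have := (Finset.mem_Icc.mp (hmem a)).1
      exact_mod_cast this)
    (fun a => by
      have := (Finset.mem_Icc.mp (hmem a)).2
      exact_mod_cast this)
  refine ⟨k, ?_⟩
  apply Finset.eq_of_subset_of_card_le
  · intro j hj
    rw [sub, Finset.mem_image] at hj
    obtain ⟨b, -, rfl⟩ := hj
    have h1 : (X k b).toNat = J.orderEmbOfFin hcard (Fin.rev b) := by
      have h2 : X k b = ((J.orderEmbOfFin hcard (Fin.rev b) : ℕ) : ℤ) := congrFun hk b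
      omega
    rw [h1]
    exact J.orderEmbOfFin_mem hcard _
  · rw [hcard]
    exact (Finset.mem_powersetCard.mp (sub_mem k)).2.ge

lemma image_sub (m n : ℕ) [DecidableEq (Finset ℕ)] :
    (Finset.univ : Finset (L m n)).image sub = (Finset.Icc 1 (m + n)).powersetCard m := by
  ext J
  rw [Finset.mem_image]
  constructor
  · rintro ⟨k, -, rfl⟩
    exact sub_mem k
  · intro hJ
    obtain ⟨k, hk⟩ := sub_surj J hJ
    exact ⟨k, Finset.mem_univ _, hk⟩

/-- the eigenvalue belonging to an element of `L(m,n)` -/
noncomputable def w {m n : ℕ} (k : L m n) : ℝ := ∑ b, ev (m + n) (X k b)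

lemma w_eq {m n : ℕ} (k : L m n) : w k = cs (m + n) (sub k) := by
  rw [cs, sub, Finset.sum_image (fun a _ b _ h => toNat_inj k h), w]
  refine Finset.sum_congr rfl fun b _ => ?_
  have h1 := X_pos k b
  unfold ev
  have h3 : (X k b) = (((X k b).toNat : ℕ) : ℤ) := by omega
  have : ((X k b : ℤ) : ℝ) = (((X k b).toNat : ℕ) : ℝ) := by
    exact_mod_cast congrArg (Int.cast : ℤ → ℝ) h3
  rw [this]

/-- the matrix of the eigenvectors -/
noncomputable def P (m n : ℕ) : Matrix (L m n) (L m n) ℝ :=
  Matrix.of fun l k => D (m + n) (X k) (X l)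

open scoped Classical in
lemma adjL_mul (m n : ℕ) : adjL m n * P m n = P m n * diagonal w := by
  ext l k
  rw [Matrix.mul_diagonal, Matrix.mul_apply]
  have h1 := congrFun (adjL_mulVec (m := m) (n := n) (X k)) l
  simp only [Matrix.mulVec, dotProduct] at h1
  simp only [P, Matrix.of_apply]
  rw [h1]
  unfold w
  ring

open scoped Classical in
lemma P_det (m n : ℕ) : (P m n).det ≠ 0 := by
  intro h
  obtain ⟨g, hg, hgP⟩ := Matrix.exists_vecMul_eq_zero_iff.mpr h
  apply hg
  apply eq_zero_of_orth
  intro k
  have h1 := congrFun hgP k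
  simpa only [Matrix.vecMul, dotProduct, P, Matrix.of_apply, Pi.zero_apply] using h1

open scoped Classical in
theorem charpoly_eq (m n : ℕ) : (adjL m n).charpoly =
    ∏ J ∈ (Finset.Icc 1 (m + n)).powersetCard m,
      (Polynomial.X - Polynomial.C (cs (m + n) J)) := by
  have hP : IsUnit (P m n) := (Matrix.isUnit_iff_isUnit_det _).mpr (P_det m n).isUnit
  have h1 : adjL m n = hP.unit.val * diagonal w * (hP.unit.val)⁻¹ := by
    rw [IsUnit.unit_spec, ← adjL_mul, mul_assoc, Matrix.mul_nonsing_inv _ (P_det m n).isUnit,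
      mul_one]
  rw [h1, Matrix.charpoly_units_conj, Matrix.charpoly_diagonal, ← image_sub,
    Finset.prod_image (fun a _ b _ h => sub_injective h)]
  exact Finset.prod_congr rfl fun k _ => by rw [w_eq]

open scoped Classical in
theorem rank_eq (m n : ℕ) : (adjL m n).rank =
    ((Finset.Icc 1 (m + n)).powersetCard m |>.filter fun J => cs (m + n) J ≠ 0).card := by
  have hP : IsUnit (P m n).det := (P_det m n).isUnit
  have h1 : (adjL m n).rank = (diagonal (w : L m n → ℝ)).rank := by
    rw [← Matrix.rank_mul_eq_left_of_isUnit_det (P m n) (adjL m n) hP, adjL_mul,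
      Matrix.rank_mul_eq_right_of_isUnit_det (P m n) _ hP]
  rw [h1, Matrix.rank_diagonal, Fintype.card_subtype, ← image_sub, Finset.filter_image,
    Finset.card_image_of_injective _ sub_injective]
  congr 1
  ext k
  simp only [Finset.mem_filter, Finset.mem_univ, true_and, w_eq]

end Pool.Agent.Y399.LS
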