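import Pool.Agent.Y399.LS.A

/-!
# Symmetric sets of indices
-/

set_option autoImplicit false

namespace Pool.Agent.Y399.LS

open Finset Polynomial
open Pool.Agent.Results.MP_34e3ac_co.Nonsingular (adjL symm_sum)

/-- `exp (π i / (N + 1))` -/
noncomputable def om (N : ℕ) : ℂ :=
  Complex.exp (2 * Real.pi * Complex.I / ((2 * (N + 1) : ℕ) : ℂ))

lemma om_prim (N : ℕ) : IsPrimitiveRoot (om N) (2 * (N + 1)) :=
  Complex.isPrimitiveRoot_exp (2 * (N + 1)) (by omega)

lemma zero_of_sym (N : ℕ) (J : Finset ℕ) (hJ : J ⊆ Finset.Icc 1 N)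
    (h : ∀ j ∈ J, N + 1 - j ∈ J) : cs N J = 0 := by
  unfold cs
  rw [← Finset.mul_sum]
  have h1 := symm_sum N J (fun j hj => by
    have := Finset.mem_Icc.mp (hJ hj)
    exact ⟨this.1, this.2, h j hj⟩)
  rw [h1, mul_zero]

/-- the middle -/
def mid (N m : ℕ) : Finset ℕ := if m % 2 = 1 then {N / 2 + 1} else ∅

/-- the symmetric set with the given left half -/
def fill (N m : ℕ) (K : Finset ℕ) : Finset ℕ := K ∪ K.image (fun j => N + 1 - j) ∪ mid N m

lemma card_fill (N m : ℕ) (h : m % 2 = 0 ∨ N % 2 = 1) (K : Finset ℕ)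
    (hK : K ⊆ Finset.Icc 1 (N / 2)) : (fill N m K).card = 2 * K.card + m % 2 := by
  have hK' : ∀ j ∈ K, 1 ≤ j ∧ j ≤ N / 2 := fun j hj => Finset.mem_Icc.mp (hK hj)
  have h1 : (K.image (fun j => N + 1 - j)).card = K.card := by
    apply Finset.card_image_of_injOn
    intro a ha b hb hab
    have := hK' a ha
    have := hK' b hb
    simp only at hab
    omega
  have h2 : (mid N m).card = m % 2 := by
    unfold mid
    split_ifs with h3
    · rw [Finset.card_singleton, h3]
    · rw [Finset.card_empty]
      omega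
  have d1 : Disjoint K (K.image (fun j => N + 1 - j)) := by
    rw [Finset.disjoint_left]
    intro j hj hj'
    rw [Finset.mem_image] at hj'
    obtain ⟨i, hi, hij⟩ := hj'
    have := hK' i hi
    have := hK' j hj
    omega
  have d2 : Disjoint (K ∪ K.image (fun j => N + 1 - j)) (mid N m) := by
    rw [Finset.disjoint_left]
    intro j hj hj'
    unfold mid at hj'
    split_ifs at hj' with h3
    · rw [Finset.mem_singleton] at hj'
      rw [Finset.mem_union, Finset.mem_image] at hj
      rcases hj with hj | ⟨i, hi, hij⟩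
      · have := hK' j hj
        omega
      · have := hK' i hi
        omega
    · exact absurd hj' (Finset.notMem_empty j)
  unfold fill
  rw [Finset.card_union_of_disjoint d2, Finset.card_union_of_disjoint d1, h1, h2]
  ring

lemma fill_filter (N m : ℕ) (_h : m % 2 = 0 ∨ N % 2 = 1) (K : Finset ℕ)
    (hK : K ⊆ Finset.Icc 1 (N / 2)) : (fill N m K).filter (fun j => j ≤ N / 2) = K := by
  have hK' : ∀ j ∈ K, 1 ≤ j ∧ j ≤ N / 2 := fun j hj => Finset.mem_Icc.mp (hK hj)
  ext j
  rw [Finset.mem_filter, fill, Finset.mem_union, Finset.mem_union, Finset.mem_image]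
  constructor
  · rintro ⟨(hj | ⟨i, hi, hij⟩) | hj, hle⟩
    · exact hj
    · have := hK' i hi
      omega
    · unfold mid at hj
      split_ifs at hj
      · rw [Finset.mem_singleton] at hj
        omega
      · exact absurd hj (Finset.notMem_empty j)
  · intro hj
    exact ⟨Or.inl (Or.inl hj), (hK' j hj).2⟩

lemma fill_mem (N m : ℕ) (h : m % 2 = 0 ∨ N % 2 = 1) (K : Finset ℕ)
    (hK : K ∈ (Finset.Icc 1 (N / 2)).powersetCard (m / 2)) :
    fill N m K ∈ ((Finset.Icc 1 N).powersetCard m).filter fun J => ∀ j ∈ J, N + 1 - j ∈ J := by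
  rw [Finset.mem_powersetCard] at hK
  obtain ⟨hK, hc⟩ := hK
  have hK' : ∀ j ∈ K, 1 ≤ j ∧ j ≤ N / 2 := fun j hj => Finset.mem_Icc.mp (hK hj)
  rw [Finset.mem_filter, Finset.mem_powersetCard, card_fill N m h K hK, hc]
  refine ⟨⟨?_, by omega⟩, ?_⟩
  · intro j hj
    rw [Finset.mem_Icc]
    rw [fill, Finset.mem_union, Finset.mem_union, Finset.mem_image] at hj
    rcases hj with (hj | ⟨i, hi, rfl⟩) | hj
    · have := hK' j hj
      omega
    · have := hK' i hi
      omega
    · unfold mid at hj
      split_ifs at hj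
      · rw [Finset.mem_singleton] at hj
        omega
      · exact absurd hj (Finset.notMem_empty j)
  · intro j hj
    rw [fill, Finset.mem_union, Finset.mem_union, Finset.mem_image] at hj ⊢
    rcases hj with (hj | ⟨i, hi, rfl⟩) | hj
    · exact Or.inl (Or.inr ⟨j, hj, rfl⟩)
    · left; left
      have := hK' i hi
      have h2 : N + 1 - (N + 1 - i) = i := by omega
      rw [h2]
      exact hi
    · right
      unfold mid at hj ⊢
      split_ifs at hj ⊢ with h3
      · rw [Finset.mem_singleton] at hj ⊢
        omega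
      · exact absurd hj (Finset.notMem_empty j)

lemma eq_fill (N m : ℕ) (J : Finset ℕ) (hJ : J ∈ (Finset.Icc 1 N).powersetCard m)
    (hs : ∀ j ∈ J, N + 1 - j ∈ J) :
    (m % 2 = 0 ∨ N % 2 = 1) ∧ J.filter (fun j => j ≤ N / 2) ∈
      (Finset.Icc 1 (N / 2)).powersetCard (m / 2) ∧
      fill N m (J.filter (fun j => j ≤ N / 2)) = J := by
  rw [Finset.mem_powersetCard] at hJ
  obtain ⟨hJ, hc⟩ := hJ
  have hJ' : ∀ j ∈ J, 1 ≤ j ∧ j ≤ N := fun j hj => Finset.mem_Icc.mp (hJ hj)
  set K := J.filter (fun j => j ≤ N / 2) with hK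
  set M := J.filter (fun j => 2 * j = N + 1) with hM
  have hKs : K ⊆ Finset.Icc 1 (N / 2) := by
    intro j hj
    rw [hK, Finset.mem_filter] at hj
    rw [Finset.mem_Icc]
    exact ⟨(hJ' j hj.1).1, hj.2⟩
  have hK' : ∀ j ∈ K, 1 ≤ j ∧ j ≤ N / 2 := fun j hj => Finset.mem_Icc.mp (hKs hj)
  have hKJ : ∀ j ∈ K, j ∈ J := fun j hj => (Finset.mem_filter.mp hj).1
  have hdec : J = K ∪ K.image (fun j => N + 1 - j) ∪ M := by
    ext j
    rw [Finset.mem_union, Finset.mem_union, Finset.mem_image]
    constructor
    · intro hj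
      have h1 := hJ' j hj
      rcases Nat.lt_trichotomy (2 * j) (N + 1) with h2 | h2 | h2
      · left; left
        rw [hK, Finset.mem_filter]
        exact ⟨hj, by omega⟩
      · right
        rw [hM, Finset.mem_filter]
        exact ⟨hj, h2⟩
      · left; right
        refine ⟨N + 1 - j, ?_, by omega⟩
        rw [hK, Finset.mem_filter]
        exact ⟨hs j hj, by omega⟩
    · rintro ((hj | ⟨i, hi, rfl⟩) | hj)
      · exact hKJ j hj
      · exact hs i (hKJ i hi)
      · exact (Finset.mem_filter.mp hj).1
  have hMc : M ⊆ {(N + 1) / 2} := by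
    intro j hj
    rw [hM, Finset.mem_filter] at hj
    rw [Finset.mem_singleton]
    omega
  have hM1 : M.card ≤ 1 := by
    refine (Finset.card_le_card hMc).trans ?_
    rw [Finset.card_singleton]
  have h1 : (K.image (fun j => N + 1 - j)).card = K.card := by
    apply Finset.card_image_of_injOn
    intro a ha b hb hab
    have := hK' a ha
    have := hK' b hb
    simp only at hab
    omega
  have d1 : Disjoint K (K.image (fun j => N + 1 - j)) := by
    rw [Finset.disjoint_left]
    intro j hj hj'
    rw [Finset.mem_image] at hj'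
    obtain ⟨i, hi, hij⟩ := hj'
    have := hK' i hi
    have := hK' j hj
    omega
  have d2 : Disjoint (K ∪ K.image (fun j => N + 1 - j)) M := by
    rw [Finset.disjoint_left]
    intro j hj hj'
    rw [hM, Finset.mem_filter] at hj'
    rw [Finset.mem_union, Finset.mem_image] at hj
    rcases hj with hj | ⟨i, hi, hij⟩
    · have := hK' j hj
      omega
    · have := hK' i hi
      omega
  have hcard : m = 2 * K.card + M.card := by
    rw [← hc, hdec, Finset.card_union_of_disjoint d2, Finset.card_union_of_disjoint d1, h1]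
    ring
  have hmidM : mid N m = M := by
    unfold mid
    split_ifs with h3
    · have h4 : M.card = 1 := by omega
      obtain ⟨x, hx⟩ := Finset.card_eq_one.mp h4
      have h5 : x ∈ M := by rw [hx]; exact Finset.mem_singleton_self x
      rw [hM, Finset.mem_filter] at h5
      rw [hx]
      congr 1
      omega
    · have h4 : M.card = 0 := by omega
      exact (Finset.card_eq_zero.mp h4).symm
  refine ⟨?_, ?_, ?_⟩
  · by_cases h3 : m % 2 = 1
    · right
      have h4 : M.card = 1 := by omega
      obtain ⟨x, hx⟩ := Finset.card_eq_one.mp h4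
      have h5 : x ∈ M := by rw [hx]; exact Finset.mem_singleton_self x
      rw [hM, Finset.mem_filter] at h5
      omega
    · left
      omega
  · rw [Finset.mem_powersetCard]
    exact ⟨hKs, by omega⟩
  · unfold fill
    rw [hmidM]
    exact hdec.symm

/-- the number of the symmetric subsets -/
theorem card_sym (N m : ℕ) :
    (((Finset.Icc 1 N).powersetCard m).filter fun J => ∀ j ∈ J, N + 1 - j ∈ J).card =
      if m % 2 = 0 ∨ N % 2 = 1 then (N / 2).choose (m / 2) else 0 := by
  split_ifs with h
  · have h1 : (N / 2).choose (m / 2) = ((Finset.Icc 1 (N / 2)).powersetCard (m / 2)).card := by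
      rw [Finset.card_powersetCard]
      simp
    rw [h1]
    refine Finset.card_nbij' (fun J => J.filter (fun j => j ≤ N / 2)) (fill N m) ?_ ?_ ?_ ?_
    · intro J hJ
      rw [Finset.mem_coe, Finset.mem_filter] at hJ
      exact (eq_fill N m J hJ.1 hJ.2).2.1
    · intro K hK
      exact fill_mem N m h K hK
    · intro J hJ
      rw [Finset.mem_coe, Finset.mem_filter] at hJ
      exact (eq_fill N m J hJ.1 hJ.2).2.2
    · intro K hK
      rw [Finset.mem_coe, Finset.mem_powersetCard] at hK
      exact fill_filter N m h K hK.1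
  · rw [Finset.card_eq_zero, Finset.filter_eq_empty_iff]
    intro J hJ hs
    exact h (eq_fill N m J hJ hs).1

end Pool.Agent.Y399.LS
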