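import Pool.Agent.Y399.LS.B

/-!
# Power sums of cosines
-/

set_option autoImplicit false

namespace Pool.Agent.Y399.LS

open Finset
open Pool.Agent.Results.MP_34e3ac_co.Nonsingular (adjL symm_sum odd_power_sums)

/-- Newton: if the odd power sums vanish then the odd elementary symmetric functions vanish. -/
lemma esymm_zero {σ : Type} [Fintype σ] [DecidableEq σ] (x : σ → ℂ)
    (h : ∀ t : ℕ, Odd t → t ≤ Fintype.card σ → ∑ i, x i ^ t = 0) :
    ∀ k : ℕ, Odd k → k ≤ Fintype.card σ →
      MvPolynomial.eval x (MvPolynomial.esymm σ ℂ k) = 0 := by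
  intro k
  induction k using Nat.strong_induction_on with
  | _ k ih =>
    intro hk hk2
    have hN := congrArg (MvPolynomial.eval x) (MvPolynomial.mul_esymm_eq_sum σ ℂ k)
    rw [map_mul, map_mul, map_sum, map_natCast] at hN
    have hzero : ∑ a ∈ Finset.HasAntidiagonal.antidiagonal k with a.1 < k,
        MvPolynomial.eval x ((-1) ^ a.1 * MvPolynomial.esymm σ ℂ a.1
          * MvPolynomial.psum σ ℂ a.2) = 0 := by
      apply Finset.sum_eq_zero
      intro a ha
      rw [Finset.mem_filter, Finset.HasAntidiagonal.mem_antidiagonal] at ha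
      obtain ⟨ha1, ha2⟩ := ha
      rw [map_mul, map_mul]
      rcases Nat.even_or_odd a.2 with he | ho
      · have ho1 : Odd a.1 := by
          rw [← ha1] at hk
          exact (Nat.odd_add.mp hk).mpr he
        rw [ih a.1 ha2 ho1 (by omega), mul_zero, zero_mul]
      · have : MvPolynomial.eval x (MvPolynomial.psum σ ℂ a.2) = 0 := by
          simp only [MvPolynomial.psum, map_sum, map_pow, MvPolynomial.eval_X]
          exact h a.2 ho (by omega)
        rw [this, mul_zero]
    rw [hzero, mul_zero] at hN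
    have hk0 : (k : ℂ) ≠ 0 := by
      have : k ≠ 0 := by
        obtain ⟨r, hr⟩ := hk
        omega
      exact_mod_cast this
    exact (mul_eq_zero.mp hN).resolve_left hk0

lemma prod_add_eq {σ : Type} [Fintype σ] [DecidableEq σ] (x : σ → ℂ) (y : ℂ) :
    ∏ i, (y + x i) = ∑ k ∈ Finset.range (Fintype.card σ + 1),
      MvPolynomial.eval x (MvPolynomial.esymm σ ℂ k) * y ^ (Fintype.card σ - k) := by
  have h := congrArg (Polynomial.eval y) (congrArg (Polynomial.map (MvPolynomial.eval x))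
    (MvPolynomial.prod_C_add_X_eq_sum_esymm (R := ℂ) (σ := σ)))
  rw [Polynomial.map_prod, Polynomial.eval_prod, Polynomial.map_sum,
    Polynomial.eval_finsetSum] at h
  have e1 : ∏ i, (y + x i) = ∏ i, Polynomial.eval y (Polynomial.map (MvPolynomial.eval x)
      (Polynomial.X + Polynomial.C (MvPolynomial.X i))) :=
    Finset.prod_congr rfl fun i _ => by simp
  rw [e1, h]
  refine Finset.sum_congr rfl fun k _ => ?_
  simp

/-- If all the odd power sums vanish then the family is closed under negation. -/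
lemma exists_neg {σ : Type} [Fintype σ] [DecidableEq σ] (x : σ → ℂ)
    (h : ∀ t : ℕ, Odd t → t ≤ Fintype.card σ → ∑ i, x i ^ t = 0) (i : σ) :
    ∃ j, x j = -x i := by
  have h1 : ∏ j, (x i + x j) = (-1) ^ (Fintype.card σ) * ∏ j, (-x i + x j) := by
    rw [prod_add_eq, prod_add_eq, Finset.mul_sum]
    refine Finset.sum_congr rfl fun k hk => ?_
    rw [Finset.mem_range] at hk
    rcases Nat.even_or_odd k with he | ho
    · have h2 : (-1 : ℂ) ^ (Fintype.card σ) * (-x i) ^ (Fintype.card σ - k) =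
          x i ^ (Fintype.card σ - k) := by
        rw [neg_pow (x i), ← mul_assoc, ← pow_add]
        have h3 : Even (Fintype.card σ + (Fintype.card σ - k)) := by
          obtain ⟨r, hr⟩ := he
          exact ⟨Fintype.card σ - r, by omega⟩
        rw [h3.neg_one_pow, one_mul]
      rw [← h2]
      ring
    · rw [esymm_zero x h k ho (by omega), zero_mul, zero_mul, mul_zero]
  have h2 : ∏ j, (-x i + x j) = 0 := Finset.prod_eq_zero (Finset.mem_univ i) (by ring)
  rw [h2, mul_zero, Finset.prod_eq_zero_iff] at h1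
  obtain ⟨j, -, hj⟩ := h1
  exact ⟨j, by linear_combination hj⟩

lemma om_ne (N : ℕ) : om N ≠ 0 := Complex.exp_ne_zero _

lemma om_add_inv (N j : ℕ) :
    om N ^ j + (om N ^ j)⁻¹ = ((2 * Real.cos (Real.pi * j / ((N : ℝ) + 1)) : ℝ) : ℂ) := by
  have hN : ((N : ℂ) + 1) ≠ 0 := by
    have : ((N + 1 : ℕ) : ℂ) ≠ 0 := by exact_mod_cast Nat.succ_ne_zero N
    simpa using this
  rw [om, ← Complex.exp_nat_mul, ← Complex.exp_neg]
  have e1 : (j : ℂ) * (2 * Real.pi * Complex.I / ((2 * (N + 1) : ℕ) : ℂ))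
      = (Real.pi * j / ((N : ℂ) + 1)) * Complex.I := by
    push_cast
    field_simp
  rw [e1]
  push_cast
  rw [Complex.two_cos, neg_mul]

lemma conj_sum' {N : ℕ} {J : Finset ℕ} (hJ : J ⊆ Finset.Icc 1 N)
    (hsum : cs N J = 0) {t : ℕ} (ht : Odd t) (htL : Nat.Coprime t (N + 1)) :
    ∑ j ∈ J, ((om N ^ j) ^ t + ((om N ^ j)⁻¹) ^ t) = 0 := by
  have hζ : IsPrimitiveRoot (om N) (2 * (N + 1)) := om_prim N
  have hζ0 : om N ≠ 0 := om_ne N
  let f : Polynomial ℤ := ∑ j ∈ J, (Polynomial.X ^ j + Polynomial.X ^ (2 * (N + 1) - j))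
  have haeval : ∀ u : ℕ, Polynomial.aeval (om N ^ u) f =
      ∑ j ∈ J, ((om N ^ j) ^ u + ((om N ^ j)⁻¹) ^ u) := by
    intro u
    simp only [f, map_sum, map_add, map_pow, Polynomial.aeval_X]
    apply Finset.sum_congr rfl
    intro j hj
    have hj2 := Finset.mem_Icc.mp (hJ hj)
    congr 1
    · rw [← pow_mul, ← pow_mul, mul_comm]
    · have h1 : (om N ^ u) ^ (2 * (N + 1) - j) * (om N ^ j) ^ u = 1 := by
        rw [← pow_mul, ← pow_mul, ← pow_add]
        have : u * (2 * (N + 1) - j) + j * u = 2 * (N + 1) * u := by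
          have h3 : (2 * (N + 1) - j) + j = 2 * (N + 1) := by omega
          calc u * (2 * (N + 1) - j) + j * u = ((2 * (N + 1) - j) + j) * u := by ring
            _ = _ := by rw [h3]
        rw [this, pow_mul, hζ.pow_eq_one, one_pow]
      have h2 : (om N ^ j) ^ u ≠ 0 := pow_ne_zero _ (pow_ne_zero _ hζ0)
      rw [inv_pow]
      exact eq_inv_of_mul_eq_one_left h1
  have h1 : Polynomial.aeval (om N) f = 0 := by
    have := haeval 1
    rw [pow_one] at this
    rw [this]
    have hcos : ∀ j ∈ J, (om N ^ j) ^ 1 + ((om N ^ j)⁻¹) ^ 1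
        = ((2 * Real.cos (Real.pi * j / ((N : ℝ) + 1)) : ℝ) : ℂ) := by
      intro j _
      rw [pow_one, pow_one, om_add_inv]
    rw [Finset.sum_congr rfl hcos, ← Complex.ofReal_sum]
    have h2 : ∑ j ∈ J, 2 * Real.cos (Real.pi * j / ((N : ℝ) + 1)) = 0 := hsum
    rw [h2, Complex.ofReal_zero]
  have hint : IsIntegral ℤ (om N) := hζ.isIntegral (by omega)
  have hdvd : minpoly ℤ (om N) ∣ f := minpoly.isIntegrallyClosed_dvd hint h1
  have hcop : Nat.Coprime t (2 * (N + 1)) := by
    apply Nat.Coprime.mul_right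
    · rw [Nat.coprime_two_right]
      exact ht
    · exact htL
  rw [hζ.minpoly_eq_pow_coprime hcop] at hdvd
  obtain ⟨g, hg⟩ := hdvd
  have h2 : Polynomial.aeval (om N ^ t) f = 0 := by
    rw [hg, map_mul, minpoly.aeval, zero_mul]
  rw [← haeval t]
  exact h2

/-- a vanishing sum with few terms is symmetric -/
lemma sym_of_small (N : ℕ) (J : Finset ℕ) (hJ : J ⊆ Finset.Icc 1 N)
    (hco : ∀ t : ℕ, Odd t → t ≤ J.card → Nat.Coprime t (N + 1)) (h : cs N J = 0) :
    ∀ j ∈ J, N + 1 - j ∈ J := by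
  intro j hj
  have hpow : ∀ t : ℕ, Odd t → t ≤ J.card → ∑ j ∈ J, (om N ^ j + (om N ^ j)⁻¹) ^ t = 0 := by
    intro t ht htm
    apply odd_power_sums (fun j => om N ^ j) (fun j => pow_ne_zero _ (om_ne N)) ht
    intro u hu huo
    exact conj_sum' hJ h huo (hco u huo (by omega))
  have hcardJ : Fintype.card J = J.card := Fintype.card_coe J
  obtain ⟨⟨i, hi⟩, hneg⟩ := exists_neg (σ := J)
    (fun j => om N ^ (j : ℕ) + (om N ^ (j : ℕ))⁻¹)
    (by
      intro t ht htm
      rw [hcardJ] at htm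
      rw [← hpow t ht htm]
      exact Finset.sum_coe_sort J (fun j => (om N ^ j + (om N ^ j)⁻¹) ^ t)) ⟨j, hj⟩
  simp only at hneg
  rw [om_add_inv, om_add_inv] at hneg
  have h1 : 2 * Real.cos (Real.pi * i / ((N : ℝ) + 1)) =
      -(2 * Real.cos (Real.pi * j / ((N : ℝ) + 1))) := by
    exact_mod_cast hneg
  have hjI := Finset.mem_Icc.mp (hJ hj)
  have hiI := Finset.mem_Icc.mp (hJ hi)
  have hN : (0 : ℝ) < (N : ℝ) + 1 := by positivity
  have h2 : Real.cos (Real.pi * i / ((N : ℝ) + 1)) =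
      Real.cos (Real.pi * ((N + 1 - j : ℕ) : ℝ) / ((N : ℝ) + 1)) := by
    have h3 : Real.pi * ((N + 1 - j : ℕ) : ℝ) / ((N : ℝ) + 1) =
        Real.pi - Real.pi * j / ((N : ℝ) + 1) := by
      rw [Nat.cast_sub (by omega)]
      push_cast
      field_simp
    rw [h3, Real.cos_pi_sub]
    linarith
  have hmem : ∀ z : ℕ, z ≤ N → Real.pi * z / ((N : ℝ) + 1) ∈ Set.Icc 0 Real.pi := by
    intro z h2
    have h2' : (z : ℝ) ≤ N := by exact_mod_cast h2
    have hpi := Real.pi_pos
    constructor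
    · positivity
    · rw [div_le_iff₀ hN]
      apply mul_le_mul_of_nonneg_left _ hpi.le
      linarith
  have h4 := Real.injOn_cos (hmem i hiI.2) (hmem (N + 1 - j) (by omega)) h2
  have hpi := Real.pi_pos
  have h5 : (i : ℝ) = ((N + 1 - j : ℕ) : ℝ) := by
    have h6 : Real.pi * i = Real.pi * ((N + 1 - j : ℕ) : ℝ) := by
      have := congrArg (fun z => z * ((N : ℝ) + 1)) h4
      simp only [div_mul_cancel₀ _ hN.ne'] at this
      exact this
    exact mul_left_cancel₀ hpi.ne' h6
  have h6 : i = N + 1 - j := by exact_mod_cast h5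
  rw [← h6]
  exact hi

lemma cs_all (N : ℕ) : cs N (Finset.Icc 1 N) = 0 := by
  apply zero_of_sym N _ (Finset.Subset.refl _)
  intro j hj
  rw [Finset.mem_Icc] at hj ⊢
  omega

/-- vanishing sums with `m` terms are symmetric if `min m n` is small -/
lemma sym_of_min (m n : ℕ) (hq : ∀ p : ℕ, p.Prime → Odd p → p ∣ m + n + 1 → min m n < p)
    (J : Finset ℕ) (hJ : J ∈ (Finset.Icc 1 (m + n)).powersetCard m) (h : cs (m + n) J = 0) :
    ∀ j ∈ J, m + n + 1 - j ∈ J := by
  rw [Finset.mem_powersetCard] at hJ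
  obtain ⟨hJ, hc⟩ := hJ
  have hco : ∀ r : ℕ, r ≤ min m n → ∀ t : ℕ, Odd t → t ≤ r → Nat.Coprime t (m + n + 1) := by
    intro r hr t ht htr
    apply Nat.coprime_of_dvd
    intro k hk hkt hkL
    have hko : Odd k := Odd.of_dvd_nat ht hkt
    have h1 := hq k hk hko hkL
    have h2 := Nat.le_of_dvd (Odd.pos ht) hkt
    omega
  rcases Nat.le_total m n with hmn | hmn
  · exact sym_of_small (m + n) J hJ (by rw [hc]; exact hco m (by omega)) h
  · set K := Finset.Icc 1 (m + n) \ J with hK
    have hKc : K.card = n := by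
      rw [hK, Finset.card_sdiff_of_subset hJ, hc]
      simp
    have hK0 : cs (m + n) K = 0 := by
      have h1 := Finset.sum_sdiff hJ
        (f := fun j : ℕ => 2 * Real.cos (Real.pi * j / (((m + n : ℕ) : ℝ) + 1)))
      have h2 := cs_all (m + n)
      unfold cs at h h2 ⊢
      rw [h2, h, add_zero] at h1
      exact h1
    have h3 := sym_of_small (m + n) K Finset.sdiff_subset (by rw [hKc]; exact hco n (by omega)) hK0
    intro j hj
    by_contra hnot
    have hjI := Finset.mem_Icc.mp (hJ hj)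
    have h4 : m + n + 1 - j ∈ K := by
      rw [hK, Finset.mem_sdiff, Finset.mem_Icc]
      exact ⟨by omega, hnot⟩
    have h5 := h3 _ h4
    have h6 : m + n + 1 - (m + n + 1 - j) = j := by omega
    rw [h6, hK, Finset.mem_sdiff] at h5
    exact h5.2 hj

/-- the number of the symmetric sets -/
def sc (m n : ℕ) : ℕ :=
  if m % 2 = 0 ∨ (m + n) % 2 = 1 then ((m + n) / 2).choose (m / 2) else 0

theorem nullity_ge (m n : ℕ) : (adjL m n).rank + sc m n ≤ (m + n).choose m := by
  classical
  rw [rank_eq]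
  have h2 := Finset.card_filter_add_card_filter_not (s := (Finset.Icc 1 (m + n)).powersetCard m)
    (fun J => cs (m + n) J ≠ 0)
  rw [Finset.card_powersetCard, Nat.card_Icc, Nat.add_sub_cancel] at h2
  have h3 : sc m n ≤
      (((Finset.Icc 1 (m + n)).powersetCard m).filter fun J => ¬ cs (m + n) J ≠ 0).card := by
    rw [sc, ← card_sym]
    apply Finset.card_le_card
    intro J hJ
    rw [Finset.mem_filter] at hJ ⊢
    refine ⟨hJ.1, ?_⟩
    rw [not_not]
    exact zero_of_sym _ J (Finset.mem_powersetCard.mp hJ.1).1 hJ.2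
  have h4 : ∀ a b c d : ℕ, a + b = c → d ≤ b → a + d ≤ c := fun a b c d h h' => by omega
  refine h4 _ _ _ _ ?_ h3
  rw [← h2]

theorem nullity_min (m n : ℕ)
    (hq : ∀ p : ℕ, p.Prime → Odd p → p ∣ m + n + 1 → min m n < p) :
    (adjL m n).rank + sc m n = (m + n).choose m := by
  classical
  rw [rank_eq]
  have h2 := Finset.card_filter_add_card_filter_not (s := (Finset.Icc 1 (m + n)).powersetCard m)
    (fun J => cs (m + n) J ≠ 0)
  rw [Finset.card_powersetCard, Nat.card_Icc, Nat.add_sub_cancel] at h2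
  have h3 : sc m n =
      (((Finset.Icc 1 (m + n)).powersetCard m).filter fun J => ¬ cs (m + n) J ≠ 0).card := by
    rw [sc, ← card_sym]
    congr 1
    ext J
    rw [Finset.mem_filter, Finset.mem_filter]
    refine and_congr_right fun hJ => ?_
    rw [not_not]
    exact ⟨zero_of_sym _ J (Finset.mem_powersetCard.mp hJ).1, sym_of_min m n hq J hJ⟩
  rw [h3, ← h2]

end Pool.Agent.Y399.LS
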