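import Pool.Agent.Y399.LS.C

/-!
# Vanishing sums that are not symmetric
-/

set_option autoImplicit false

namespace Pool.Agent.Y399.LS

open Finset
open Pool.Agent.Results.MP_34e3ac_co.Nonsingular (adjL symm_sum Z_large Z)

lemma coset_sum_half (p q : ℕ) (hp : 1 < p) (hq : 0 < q) :
    ∑ t ∈ Finset.range p, Real.cos (Real.pi * (1 + 2 * t * q) / (p * q)) = 0 := by
  have hp0 : (p : ℂ) ≠ 0 := by
    have : p ≠ 0 := by omega
    exact_mod_cast this
  have hq0 : (q : ℂ) ≠ 0 := by
    have : q ≠ 0 := by omega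
    exact_mod_cast this
  have hprim := Complex.isPrimitiveRoot_exp p (by omega)
  have hgeom := hprim.geom_sum_eq_zero hp
  have h1 : ∑ t ∈ Finset.range p, Complex.exp (((Real.pi * (1 + 2 * t * q) / (p * q) : ℝ) : ℂ)
      * Complex.I) = 0 := by
    have : ∀ t ∈ Finset.range p, Complex.exp (((Real.pi * (1 + 2 * t * q) / (p * q) : ℝ) : ℂ)
      * Complex.I) = Complex.exp (Real.pi * Complex.I / (p * q))
        * (Complex.exp (2 * Real.pi * Complex.I / p)) ^ t := by
      intro t _
      rw [← Complex.exp_nat_mul, ← Complex.exp_add]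
      congr 1
      push_cast
      field_simp
    rw [Finset.sum_congr rfl this, ← Finset.mul_sum, hgeom, mul_zero]
  have h2 := congrArg Complex.re h1
  rw [Complex.re_sum] at h2
  simp only [Complex.exp_ofReal_mul_I_re, Complex.zero_re] at h2
  exact h2

/-- the folded coset -/
def fo (L q t : ℕ) : ℕ := if 1 + 2 * (t * q) < L then 1 + 2 * (t * q) else 2 * L - (1 + 2 * (t * q))

lemma fo_bound (p q t : ℕ) (ht : t < p) : t * q + q ≤ p * q := by
  have : (t + 1) * q ≤ p * q := Nat.mul_le_mul_right q ht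
  linarith

lemma fo_mem (p q t : ℕ) (hq : 2 ≤ q) (hqe : Even q) (ht : t < p) :
    1 ≤ fo (p * q) q t ∧ fo (p * q) q t < p * q := by
  have hb := fo_bound p q t ht
  obtain ⟨r, hr⟩ := (hqe.mul_left p)
  unfold fo
  split_ifs with h
  · omega
  · omega

lemma fo_inj (p q t u : ℕ) (hq : 2 ≤ q) (ht : t < p) (hu : u < p)
    (h : fo (p * q) q t = fo (p * q) q u) : t = u := by
  have hbt := fo_bound p q t ht
  have hbu := fo_bound p q u hu
  have hcase : t * q = u * q ∨ 1 + t * q + u * q = p * q := by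
    unfold fo at h
    split_ifs at h <;> omega
  rcases hcase with h | h
  · exact Nat.eq_of_mul_eq_mul_right (by omega) h
  · exfalso
    have hdvd : q ∣ 1 := by
      have h3 : q ∣ 1 + (t + u) * q := ⟨p, by linarith⟩
      exact (Nat.dvd_add_left (Dvd.intro_left (t + u) rfl)).mp h3
    have := Nat.le_of_dvd (by norm_num) hdvd
    omega

lemma fo_add (p q t u : ℕ) (hp : Odd p) (hq : 3 ≤ q) (ht : t < p) (hu : u < p) :
    fo (p * q) q t + fo (p * q) q u ≠ p * q := by
  intro h
  have hbt := fo_bound p q t ht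
  have hbu := fo_bound p q u hu
  have hq0 : 0 < q := by omega
  have hcase : 2 + 2 * (t * q) + 2 * (u * q) = p * q ∨ 2 + 2 * (t * q) + 2 * (u * q) = 3 * (p * q) ∨
      2 * (t * q) = 2 * (u * q) + p * q ∨ 2 * (u * q) = 2 * (t * q) + p * q := by
    unfold fo at h
    split_ifs at h <;> omega
  obtain ⟨r, hr⟩ := hp
  rcases hcase with h | h | h | h
  · have hdvd : q ∣ 2 := by
      have h3 : q ∣ 2 + (2 * (t + u)) * q := ⟨p, by linarith⟩
      exact (Nat.dvd_add_left (Dvd.intro_left (2 * (t + u)) rfl)).mp h3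
    have := Nat.le_of_dvd (by norm_num) hdvd
    omega
  · have hdvd : q ∣ 2 := by
      have h3 : q ∣ 2 + (2 * (t + u)) * q := ⟨3 * p, by linarith⟩
      exact (Nat.dvd_add_left (Dvd.intro_left (2 * (t + u)) rfl)).mp h3
    have := Nat.le_of_dvd (by norm_num) hdvd
    omega
  · have h4 : (2 * t) * q = (2 * u + p) * q := by linarith
    have := Nat.eq_of_mul_eq_mul_right hq0 h4
    omega
  · have h4 : (2 * u) * q = (2 * t + p) * q := by linarith
    have := Nat.eq_of_mul_eq_mul_right hq0 h4
    omega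

/-- the folded coset, as a set -/
def co1 (p q : ℕ) : Finset ℕ := (Finset.range p).image (fo (p * q) q)

lemma co1_card (p q : ℕ) (hq : 2 ≤ q) : (co1 p q).card = p := by
  rw [co1, Finset.card_image_of_injOn, Finset.card_range]
  intro t ht u hu h
  simp only [Finset.coe_range, Set.mem_Iio] at ht hu
  exact fo_inj p q t u hq ht hu h

lemma co1_sum (N p q : ℕ) (hp : 1 < p) (hq : 2 ≤ q) (hN : N + 1 = p * q) :
    cs N (co1 p q) = 0 := by
  unfold cs
  rw [← Finset.mul_sum, co1, Finset.sum_image]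
  · have key : ∑ x ∈ Finset.range p, Real.cos (Real.pi * ((fo (p * q) q x : ℕ) : ℝ) / ((N : ℝ) + 1)) =
        ∑ t ∈ Finset.range p, Real.cos (Real.pi * (1 + 2 * t * q) / (p * q)) := ?_
    · rw [key, coset_sum_half p q hp (by omega), mul_zero]
    apply Finset.sum_congr rfl
    intro t ht
    rw [Finset.mem_range] at ht
    have hbt := fo_bound p q t ht
    have hcastL : ((N : ℝ) + 1) = p * q := by
      have : ((N + 1 : ℕ) : ℝ) = ((p * q : ℕ) : ℝ) := by rw [hN]
      push_cast at this ⊢
      linarith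
    have hL0 : ((p : ℝ) * q) ≠ 0 := by
      rw [← hcastL]; positivity
    rw [hcastL]
    unfold fo
    split_ifs with hc
    · congr 1
      push_cast
      ring
    · rw [Nat.cast_sub (by omega)]
      have : Real.pi * (((2 * (p * q) : ℕ) : ℝ) - ((1 + 2 * (t * q) : ℕ) : ℝ)) / (p * q)
          = 2 * Real.pi - Real.pi * (1 + 2 * t * q) / (p * q) := by
        push_cast
        field_simp
      rw [this, Real.cos_two_pi_sub]
  · intro t ht u hu h
    simp only [Finset.coe_range, Set.mem_Iio] at ht hu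
    exact fo_inj p q t u hq ht hu h

/-- a vanishing sum with `m` terms that is not symmetric -/
lemma exists_nonsym (m n p q : ℕ) (hp : p.Prime) (hpo : Odd p) (hL : m + n + 1 = p * q)
    (hLe : (m + n) % 2 = 1) (hpm : p ≤ m) (hpn : p ≤ n) :
    ∃ J ∈ (Finset.Icc 1 (m + n)).powersetCard m, cs (m + n) J = 0 ∧
      ¬ ∀ j ∈ J, m + n + 1 - j ∈ J := by
  have hp1 := hp.one_lt
  have hqe : Even q := by
    have h1 : Even (p * q) := by
      rw [← hL, Nat.even_iff]
      omega
    rcases Nat.even_mul.mp h1 with h2 | h2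
    · exact absurd h2 (Nat.not_even_iff_odd.mpr hpo)
    · exact h2
  have hq3 : 3 ≤ q := by
    by_contra hcon
    have h1 : q ≤ 2 := by omega
    have h2 : p * q ≤ p * 2 := Nat.mul_le_mul_left p h1
    omega
  set N := m + n with hN
  set E : Finset ℕ := Finset.Icc 1 (N / 2) \ (co1 p q).image (fun j => min j (N + 1 - j)) with hE
  have hEc : N / 2 - p ≤ E.card := by
    have h1 : ((co1 p q).image (fun j => min j (N + 1 - j))).card ≤ p := by
      refine Finset.card_image_le.trans ?_
      rw [co1_card p q (by omega)]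
    have h2 := Finset.le_card_sdiff ((co1 p q).image (fun j => min j (N + 1 - j)))
      (Finset.Icc 1 (N / 2))
    rw [Nat.card_Icc, Nat.add_sub_cancel] at h2
    rw [hE]
    omega
  obtain ⟨E', hE', hE'c⟩ := Finset.exists_subset_card_eq (s := E) (n := (m - p) / 2) (by omega)
  have hE'1 : E' ⊆ Finset.Icc 1 (N / 2) := hE'.trans Finset.sdiff_subset
  have hfill := fill_mem N (m - p) (Or.inr hLe) E' (by
    rw [Finset.mem_powersetCard]
    exact ⟨hE'1, hE'c⟩)
  rw [Finset.mem_filter, Finset.mem_powersetCard] at hfill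
  obtain ⟨⟨hF1, hF2⟩, hF3⟩ := hfill
  set F := fill N (m - p) E' with hF
  have hco : ∀ j ∈ co1 p q, 1 ≤ j ∧ j ≤ N := by
    intro j hj
    rw [co1, Finset.mem_image] at hj
    obtain ⟨t, ht, rfl⟩ := hj
    rw [Finset.mem_range] at ht
    have h1 := fo_mem p q t (by omega) hqe ht
    rw [← hL] at h1
    rw [← hL]
    omega
  have hadd : ∀ j ∈ co1 p q, ∀ i ∈ co1 p q, j + i ≠ N + 1 := by
    intro j hj i hi
    rw [co1, Finset.mem_image] at hj hi
    obtain ⟨t, ht, rfl⟩ := hj
    obtain ⟨u, hu, rfl⟩ := hi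
    rw [Finset.mem_range] at ht hu
    rw [hL]
    exact fo_add p q t u hpo hq3 ht hu
  have hdisj : Disjoint (co1 p q) F := by
    rw [Finset.disjoint_left]
    intro j hj hjF
    have hj1 := hco j hj
    rw [hF, fill, Finset.mem_union, Finset.mem_union, Finset.mem_image] at hjF
    rcases hjF with (h1 | ⟨i, hi, hij⟩) | h1
    · have h2 := hE' h1
      have h3 := Finset.mem_Icc.mp (hE'1 h1)
      rw [hE, Finset.mem_sdiff, Finset.mem_image] at h2
      apply h2.2
      exact ⟨j, hj, by omega⟩
    · have h2 := hE' hi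
      have h3 := Finset.mem_Icc.mp (hE'1 hi)
      rw [hE, Finset.mem_sdiff, Finset.mem_image] at h2
      apply h2.2
      exact ⟨j, hj, by omega⟩
    · unfold mid at h1
      split_ifs at h1
      · rw [Finset.mem_singleton] at h1
        have := hadd j hj j hj
        omega
      · exact absurd h1 (Finset.notMem_empty j)
  have hone : 1 ∈ co1 p q := by
    rw [co1, Finset.mem_image]
    refine ⟨0, Finset.mem_range.mpr (by omega), ?_⟩
    unfold fo
    rw [← hL]
    rw [if_pos (by omega)]
    omega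
  refine ⟨co1 p q ∪ F, ?_, ?_, ?_⟩
  · rw [Finset.mem_powersetCard, Finset.card_union_of_disjoint hdisj, co1_card p q (by omega), hF2]
    refine ⟨?_, by omega⟩
    intro j hj
    rw [Finset.mem_union] at hj
    rcases hj with hj | hj
    · exact Finset.mem_Icc.mpr (hco j hj)
    · exact hF1 hj
  · have h1 := co1_sum N p q hp1 (by omega) hL
    have h2 := zero_of_sym N F hF1 hF3
    unfold cs at h1 h2 ⊢
    rw [Finset.sum_union hdisj, h1, h2, add_zero]
  · intro hall
    have h1 := hall 1 (Finset.mem_union_left _ hone)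
    rw [Finset.mem_union] at h1
    rcases h1 with h1 | h1
    · exact hadd 1 hone _ h1 (by omega)
    · have h2 := hF3 _ h1
      have h3 : N + 1 - (N + 1 - 1) = 1 := by omega
      rw [h3] at h2
      exact (Finset.disjoint_left.mp hdisj) hone h2

lemma nullity_gt_of (m n : ℕ) (h : ∃ J ∈ (Finset.Icc 1 (m + n)).powersetCard m,
    cs (m + n) J = 0 ∧ ¬ ∀ j ∈ J, m + n + 1 - j ∈ J) :
    (adjL m n).rank + sc m n < (m + n).choose m := by
  classical
  rw [rank_eq]
  have h2 := Finset.card_filter_add_card_filter_not (s := (Finset.Icc 1 (m + n)).powersetCard m)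
    (fun J => cs (m + n) J ≠ 0)
  rw [Finset.card_powersetCard, Nat.card_Icc, Nat.add_sub_cancel] at h2
  have h3 : sc m n <
      (((Finset.Icc 1 (m + n)).powersetCard m).filter fun J => ¬ cs (m + n) J ≠ 0).card := by
    rw [sc, ← card_sym]
    apply Finset.card_lt_card
    rw [Finset.ssubset_iff_subset_ne]
    constructor
    · intro J hJ
      rw [Finset.mem_filter] at hJ ⊢
      refine ⟨hJ.1, ?_⟩
      rw [not_not]
      exact zero_of_sym _ J (Finset.mem_powersetCard.mp hJ.1).1 hJ.2
    · intro heq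
      obtain ⟨J, hJ, hJ0, hJs⟩ := h
      have h4 : J ∈ (((Finset.Icc 1 (m + n)).powersetCard m).filter
          fun J => ¬ cs (m + n) J ≠ 0) := by
        rw [Finset.mem_filter, not_not]
        exact ⟨hJ, hJ0⟩
      rw [← heq, Finset.mem_filter] at h4
      exact hJs h4.2
  have h4 : ∀ a b c d : ℕ, a + b = c → d < b → a + d < c := fun a b c d h h' => by omega
  refine h4 _ _ _ _ ?_ h3
  rw [← h2]

theorem nullity_gt (m n : ℕ) (hmn : Odd m ∨ Odd n) (p : ℕ) (hp : p.Prime)
    (hpo : Odd p) (hd : p ∣ m + n + 1) (hmin : p ≤ min m n) :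
    (adjL m n).rank + sc m n < (m + n).choose m := by
  obtain ⟨q, hq⟩ := hd
  rcases Nat.mod_two_eq_zero_or_one (m + n) with h0 | h1
  · have hm : Odd m := by
      rw [Nat.odd_iff, Nat.odd_iff] at hmn
      rw [Nat.odd_iff]
      omega
    have hn : Odd n := by
      rw [Nat.odd_iff, Nat.odd_iff] at hmn
      rw [Nat.odd_iff]
      omega
    have hle : (m + n + 1).minFac ≤ p := Nat.minFac_le_of_dvd hp.two_le ⟨q, hq⟩
    obtain ⟨J, hJ, hJc, hJs⟩ := Z_large hm hn (by omega) (by omega)
    apply nullity_gt_of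
    have hJp : J ∈ (Finset.Icc 1 (m + n)).powersetCard m := by
      rw [Finset.mem_powersetCard]
      exact ⟨hJ, hJc⟩
    refine ⟨J, hJp, ?_, ?_⟩
    · unfold cs
      rw [← Finset.mul_sum, hJs, mul_zero]
    · intro hs
      have h2 := (eq_fill (m + n) m J hJp hs).1
      rw [Nat.odd_iff] at hm
      omega
  · exact nullity_gt_of m n (exists_nonsym m n p q hp hpo hq h1 (by omega) (by omega))

end Pool.Agent.Y399.LS
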